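import Mathlib

set_option autoImplicit false

namespace Pool.Agent.Results.MP_a21db2_an.SuperDeltaDenting

open Filter Topology

section Defs

variable (𝕜 : Type) [RCLike 𝕜] {X : Type} [NormedAddCommGroup X] [NormedSpace 𝕜 X]

/-- The slice of the closed unit ball given by the functional `f` and the number `α`. -/
def slice (f : X →L[𝕜] 𝕜) (α : ℝ) : Set X :=
  {y : X | ‖y‖ ≤ 1 ∧ ‖f‖ - α < RCLike.re (f y)}

/-- `x` is a denting point of the closed unit ball. -/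
def IsDenting (x : X) : Prop :=
  ‖x‖ ≤ 1 ∧ ∀ ε : ℝ, 0 < ε → ∃ (f : X →L[𝕜] 𝕜) (α : ℝ), f ≠ 0 ∧ 0 < α ∧
    x ∈ slice 𝕜 f α ∧ Metric.diam (slice 𝕜 f α) < ε

/-- `x` is a `Δ`-point. -/
def IsDelta (x : X) : Prop :=
  ‖x‖ = 1 ∧ ∀ (f : X →L[𝕜] 𝕜) (α : ℝ), f ≠ 0 → 0 < α → x ∈ slice 𝕜 f α →
    IsLUB ((fun y : X => ‖x - y‖) '' slice 𝕜 f α) 2

/-- `x` is a super `Δ`-point. -/
def IsSuperDelta (x : X) : Prop :=
  ‖x‖ = 1 ∧ ∀ W : Set (WeakSpace 𝕜 X), IsOpen W → toWeakSpace 𝕜 X x ∈ W →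
    IsLUB ((fun y : X => ‖x - y‖) '' {y : X | ‖y‖ ≤ 1 ∧ toWeakSpace 𝕜 X y ∈ W}) 2

end Defs

section Aux

variable {𝕜 : Type} [RCLike 𝕜] {X : Type} [NormedAddCommGroup X] [NormedSpace 𝕜 X]

theorem eval_weak_continuous (f : X →L[𝕜] 𝕜) :
    Continuous (fun y : WeakSpace 𝕜 X => f ((toWeakSpace 𝕜 X).symm y)) :=
  WeakBilin.eval_continuous (topDualPairing 𝕜 X).flip f

/-- A super `Δ`-point is a `Δ`-point. -/
theorem IsSuperDelta.isDelta {x : X} (hx : IsSuperDelta 𝕜 x) : IsDelta 𝕜 x := by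
  refine ⟨hx.1, fun f α _ _ hxs => ?_⟩
  have hopen : IsOpen {y : WeakSpace 𝕜 X | ‖f‖ - α < RCLike.re (f ((toWeakSpace 𝕜 X).symm y))} :=
    isOpen_lt continuous_const (RCLike.continuous_re.comp (eval_weak_continuous f))
  have h := hx.2 _ hopen (by simpa using hxs.2)
  have hset : {y : X | ‖y‖ ≤ 1 ∧ toWeakSpace 𝕜 X y ∈
      {y : WeakSpace 𝕜 X | ‖f‖ - α < RCLike.re (f ((toWeakSpace 𝕜 X).symm y))}} = slice 𝕜 f α := by
    ext y
    simp [slice]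
  rwa [hset] at h

/-- A convenient criterion for super `Δ`-points. -/
theorem isSuperDelta_of {x : X} (hx : ‖x‖ = 1)
    (h : ∀ W : Set (WeakSpace 𝕜 X), IsOpen W → toWeakSpace 𝕜 X x ∈ W → ∀ ε : ℝ, 0 < ε →
      ∃ y : X, ‖y‖ ≤ 1 ∧ toWeakSpace 𝕜 X y ∈ W ∧ 2 - ε < ‖x - y‖) : IsSuperDelta 𝕜 x := by
  refine ⟨hx, fun W hW hxW => ⟨?_, ?_⟩⟩
  · rintro _ ⟨y, hy, rfl⟩
    calc ‖x - y‖ ≤ ‖x‖ + ‖y‖ := norm_sub_le x y
      _ ≤ 2 := by linarith [hy.1]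
  · intro b hb
    refine le_of_forall_pos_le_add fun ε hε => ?_
    obtain ⟨y, hy1, hyW, hy2⟩ := h W hW hxW ε hε
    have := hb ⟨y, ⟨hy1, hyW⟩, rfl⟩
    simp only at this
    linarith

end Aux

section Ellinfty

variable (𝕜 : Type) [RCLike 𝕜]

open BoundedContinuousFunction

/-- The `k`-th unit vector scaled by `c` in the space of bounded sequences. -/
noncomputable def sgl (k : ℕ) (c : 𝕜) : ℕ →ᵇ 𝕜 :=
  ofNormedAddCommGroupDiscrete (fun n => if n = k then c else 0) ‖c‖ (by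
    intro n; split_ifs <;> simp)

theorem sgl_apply (k n : ℕ) (c : 𝕜) : sgl 𝕜 k c n = if n = k then c else 0 := rfl

theorem sgl_smul (k : ℕ) (c : 𝕜) : sgl 𝕜 k c = c • sgl 𝕜 k 1 := by
  ext n; simp [sgl_apply]

theorem sum_le (g : (ℕ →ᵇ 𝕜) →L[𝕜] 𝕜) (K : ℕ) :
    ∑ k ∈ Finset.range K, ‖g (sgl 𝕜 k 1)‖ ≤ ‖g‖ := by
  classical
  have hc : ∀ z : 𝕜, ∃ c : 𝕜, ‖c‖ ≤ 1 ∧ c * z = (‖z‖ : 𝕜) := by
    intro z
    by_cases hz : z = 0
    · exact ⟨0, by simp, by simp [hz]⟩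
    · refine ⟨(‖z‖ : 𝕜) / z, ?_, ?_⟩
      · rw [norm_div]
        simp [hz]
      · field_simp
  choose c hc1 hc2 using hc
  set v : ℕ →ᵇ 𝕜 := ∑ k ∈ Finset.range K, sgl 𝕜 k (c (g (sgl 𝕜 k 1))) with hv
  have hvn : ‖v‖ ≤ 1 := by
    rw [BoundedContinuousFunction.norm_le zero_le_one]
    intro n
    have : v n = if n ∈ Finset.range K then c (g (sgl 𝕜 n 1)) else 0 := by
      rw [hv]
      simp only [BoundedContinuousFunction.coe_sum, Finset.sum_apply, sgl_apply]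
      rw [Finset.sum_ite_eq]
    rw [this]
    split_ifs
    · exact hc1 _
    · simp
  have hgv : g v = ((∑ k ∈ Finset.range K, ‖g (sgl 𝕜 k 1)‖ : ℝ) : 𝕜) := by
    rw [hv, map_sum]
    push_cast
    refine Finset.sum_congr rfl fun k _ => ?_
    rw [sgl_smul, map_smul, smul_eq_mul, hc2]
  have h1 : ‖g v‖ ≤ ‖g‖ := by
    calc ‖g v‖ ≤ ‖g‖ * ‖v‖ := g.le_opNorm v
      _ ≤ ‖g‖ * 1 := by gcongr
      _ = ‖g‖ := mul_one _
  rw [hgv, RCLike.norm_ofReal] at h1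
  exact (le_abs_self _).trans h1

theorem tendsto_sgl (g : (ℕ →ᵇ 𝕜) →L[𝕜] 𝕜) : Tendsto (fun k => g (sgl 𝕜 k 1)) atTop (𝓝 0) := by
  have hs : Summable (fun k => ‖g (sgl 𝕜 k 1)‖) :=
    summable_of_sum_range_le (fun _ => norm_nonneg _) (sum_le 𝕜 g)
  exact tendsto_zero_iff_norm_tendsto_zero.mpr hs.tendsto_atTop_zero

/-- The constant sequence `1` is a super `Δ`-point of the space of bounded sequences. -/
theorem one_isSuperDelta : IsSuperDelta 𝕜 (1 : ℕ →ᵇ 𝕜) := by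
  refine isSuperDelta_of (by simp) fun W hW h1W ε hε => ?_
  have hlim : Tendsto (fun k => toWeakSpace 𝕜 (ℕ →ᵇ 𝕜) (1 - sgl 𝕜 k 2)) atTop
      (𝓝 (toWeakSpace 𝕜 (ℕ →ᵇ 𝕜) 1)) := by
    have hinj : Function.Injective (topDualPairing 𝕜 (ℕ →ᵇ 𝕜)).flip := by
      intro a b hab
      by_contra hne
      obtain ⟨f, hf⟩ := SeparatingDual.exists_separating_of_ne (R := 𝕜) hne
      exact hf (by simpa using LinearMap.congr_fun hab f)
    refine (WeakBilin.tendsto_iff_forall_eval_tendsto _ hinj).mpr fun g => ?_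
    have h0 := tendsto_sgl 𝕜 g
    have h2 : Tendsto (fun k => g 1 - 2 * g (sgl 𝕜 k 1)) atTop (𝓝 (g 1 - 2 * 0)) :=
      tendsto_const_nhds.sub (h0.const_mul 2)
    rw [mul_zero, sub_zero] at h2
    refine h2.congr fun k => ?_
    change _ = g (1 - sgl 𝕜 k 2)
    rw [map_sub, sgl_smul 𝕜 k 2, map_smul, smul_eq_mul]
  have hev := hlim.eventually (hW.mem_nhds h1W)
  obtain ⟨k, hk⟩ := hev.exists
  refine ⟨1 - sgl 𝕜 k 2, ?_, hk, ?_⟩
  · rw [BoundedContinuousFunction.norm_le zero_le_one]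
    intro n
    simp only [BoundedContinuousFunction.coe_sub, BoundedContinuousFunction.coe_one, Pi.sub_apply,
      Pi.one_apply, sgl_apply]
    split_ifs
    · norm_num
    · simp
  · have : (1 : ℕ →ᵇ 𝕜) - (1 - sgl 𝕜 k 2) = sgl 𝕜 k 2 := by abel
    rw [this]
    have h3 : ‖(sgl 𝕜 k 2) k‖ ≤ ‖sgl 𝕜 k 2‖ := BoundedContinuousFunction.norm_coe_le_norm _ _
    rw [sgl_apply, if_pos rfl] at h3
    have h4 : ‖(2 : 𝕜)‖ = 2 := RCLike.norm_two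
    linarith

end Ellinfty

section Main

variable {𝕜 : Type} [RCLike 𝕜] {V : Type} [NormedAddCommGroup V] [NormedSpace 𝕜 V]

/-- The Euclidean plane. -/
abbrev E (𝕜 : Type) [RCLike 𝕜] : Type := EuclideanSpace 𝕜 (Fin 2)

/-- The unit vector `(c, s)` of the Euclidean plane. -/
noncomputable def e (𝕜 : Type) [RCLike 𝕜] (c s : ℝ) : E 𝕜 := !₂[(c : 𝕜), (s : 𝕜)]

theorem norm_e_sub (c s c' s' : ℝ) : ‖e 𝕜 c s - e 𝕜 c' s'‖ ^ 2 = (c - c') ^ 2 + (s - s') ^ 2 := by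
  rw [EuclideanSpace.norm_sq_eq, Fin.sum_univ_two]
  simp only [e, PiLp.sub_apply]
  simp only [Matrix.cons_val_zero, Matrix.cons_val_one]
  rw [← RCLike.ofReal_sub, ← RCLike.ofReal_sub, RCLike.norm_ofReal, RCLike.norm_ofReal, sq_abs,
    sq_abs]

theorem norm_e {c s : ℝ} (h : c ^ 2 + s ^ 2 = 1) : ‖e 𝕜 c s‖ = 1 := by
  have h0 := norm_e_sub (𝕜 := 𝕜) c s 0 0
  have h1 : e 𝕜 0 0 = 0 := by
    ext i; fin_cases i <;> simp [e]
  rw [h1, sub_zero, sub_zero, sub_zero, h] at h0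
  nlinarith [norm_nonneg (e 𝕜 c s)]

/-- The line that is factored out. -/
noncomputable def N (x : V) : Submodule 𝕜 (WithLp 1 (V × E 𝕜)) :=
  Submodule.span 𝕜 {WithLp.toLp 1 (x, -e 𝕜 1 0)}

instance (x : V) : IsClosed ((N (𝕜 := 𝕜) x : Submodule 𝕜 (WithLp 1 (V × E 𝕜))) :
    Set (WithLp 1 (V × E 𝕜))) := by
  unfold N
  exact Submodule.closed_of_finiteDimensional _


/-- The amalgamated sum of `V` and the Euclidean plane. -/
abbrev Q (𝕜 : Type) [RCLike 𝕜] {V : Type} [NormedAddCommGroup V] [NormedSpace 𝕜 V] (x : V) : Type :=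
  WithLp 1 (V × E 𝕜) ⧸ N (𝕜 := 𝕜) x

/-- The quotient map on pairs. -/
noncomputable def q (x v : V) (w : E 𝕜) : Q 𝕜 x := Submodule.Quotient.mk (WithLp.toLp 1 (v, w))

theorem norm_q_le (x v : V) (w : E 𝕜) : ‖q x v w‖ ≤ ‖v‖ + ‖w‖ := by
  refine (Submodule.Quotient.norm_mk_le _ _).trans (le_of_eq ?_)
  exact WithLp.prod_norm_eq_of_L1 _

theorem exists_rep (x : V) (u : Q 𝕜 x) {δ : ℝ} (hδ : 0 < δ) :
    ∃ (v : V) (w : E 𝕜), q x v w = u ∧ ‖v‖ + ‖w‖ < ‖u‖ + δ := by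
  obtain ⟨m, hm, hm2⟩ := Submodule.Quotient.norm_mk_lt u hδ
  refine ⟨m.fst, m.snd, hm, ?_⟩
  rwa [← WithLp.prod_norm_eq_of_L1]

theorem q_add (x v v' : V) (w w' : E 𝕜) : q x (v + v') (w + w') = q x v w + q x v' w' := rfl

theorem q_sub (x v v' : V) (w w' : E 𝕜) : q x (v - v') (w - w') = q x v w - q x v' w' := rfl

theorem q_smul (x v : V) (w : E 𝕜) (c : 𝕜) : q x (c • v) (c • w) = c • q x v w := rfl

theorem q_self (x : V) : q (𝕜 := 𝕜) x x 0 = q x 0 (e 𝕜 1 0) := by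
  unfold q
  rw [Submodule.Quotient.eq]
  have : WithLp.toLp 1 (x, (0 : E 𝕜)) - WithLp.toLp 1 ((0 : V), e 𝕜 1 0) =
      WithLp.toLp 1 (x, -e 𝕜 1 0) := by
    rw [← WithLp.toLp_sub]
    simp
  rw [this]
  exact Submodule.mem_span_singleton_self _

/-- A pair of functionals that agree on the glued vectors defines a functional on the sum. -/
noncomputable def lift (x : V) (φ : V →L[𝕜] 𝕜) (ψ : E 𝕜 →L[𝕜] 𝕜) (h : φ x = ψ (e 𝕜 1 0))
    (hφ : ‖φ‖ ≤ 1) (hψ : ‖ψ‖ ≤ 1) : Q 𝕜 x →L[𝕜] 𝕜 :=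
  LinearMap.mkContinuous
    ((N (𝕜 := 𝕜) x).liftQ
      ((φ : V →ₗ[𝕜] 𝕜) ∘ₗ WithLp.fstₗ 1 𝕜 V (E 𝕜) + (ψ : E 𝕜 →ₗ[𝕜] 𝕜) ∘ₗ WithLp.sndₗ 1 𝕜 V (E 𝕜))
      (by
        unfold N
        rw [Submodule.span_le, Set.singleton_subset_iff]
        simp [h]))
    1
    (by
      intro u
      rw [one_mul]
      refine le_of_forall_pos_le_add fun δ hδ => ?_
      obtain ⟨v, w, rfl, hvw⟩ := exists_rep x u hδ
      refine le_trans ?_ hvw.le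
      change ‖φ v + ψ w‖ ≤ ‖v‖ + ‖w‖
      calc ‖φ v + ψ w‖ ≤ ‖φ v‖ + ‖ψ w‖ := norm_add_le _ _
        _ ≤ ‖φ‖ * ‖v‖ + ‖ψ‖ * ‖w‖ := by
            gcongr
            · exact φ.le_opNorm v
            · exact ψ.le_opNorm w
        _ ≤ 1 * ‖v‖ + 1 * ‖w‖ := by gcongr
        _ = ‖v‖ + ‖w‖ := by ring)

theorem lift_q (x : V) (φ : V →L[𝕜] 𝕜) (ψ : E 𝕜 →L[𝕜] 𝕜) (h : φ x = ψ (e 𝕜 1 0))
    (hφ : ‖φ‖ ≤ 1) (hψ : ‖ψ‖ ≤ 1) (v : V) (w : E 𝕜) :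
    lift x φ ψ h hφ hψ (q x v w) = φ v + ψ w := rfl

theorem norm_lift_le (x : V) (φ : V →L[𝕜] 𝕜) (ψ : E 𝕜 →L[𝕜] 𝕜) (h : φ x = ψ (e 𝕜 1 0))
    (hφ : ‖φ‖ ≤ 1) (hψ : ‖ψ‖ ≤ 1) : ‖lift x φ ψ h hφ hψ‖ ≤ 1 :=
  LinearMap.mkContinuous_norm_le _ zero_le_one _

/-- The isometric embedding of `V`. -/
theorem norm_q_zero {x : V} (hx : ‖x‖ = 1) (v : V) : ‖q (𝕜 := 𝕜) x v 0‖ = ‖v‖ := by
  refine le_antisymm ((norm_q_le x v 0).trans (by simp)) ?_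
  refine le_of_forall_pos_le_add fun δ hδ => ?_
  obtain ⟨m, hm, hm2⟩ := Submodule.Quotient.norm_mk_lt (q (𝕜 := 𝕜) x v 0) hδ
  refine le_trans ?_ hm2.le
  unfold q at hm
  rw [Submodule.Quotient.eq] at hm
  unfold N at hm
  rw [Submodule.mem_span_singleton] at hm
  obtain ⟨a, ha⟩ := hm
  rw [WithLp.prod_norm_eq_of_L1]
  have h1 : a • x = m.fst - v := congrArg WithLp.fst ha
  have h2 : a • (-e 𝕜 1 0) = m.snd - 0 := congrArg WithLp.snd ha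
  have h3 : ‖m.snd‖ = ‖a‖ := by
    rw [← sub_zero m.snd, ← h2, norm_smul, norm_neg, norm_e (by norm_num), mul_one]
  have h4 : v = m.fst - a • x := by rw [h1]; abel
  rw [h3]
  calc ‖v‖ = ‖m.fst - a • x‖ := by rw [← h4]
    _ ≤ ‖m.fst‖ + ‖a • x‖ := norm_sub_le _ _
    _ = ‖m.fst‖ + ‖a‖ := by rw [norm_smul, hx, mul_one]

/-- The isometric embedding of `V` into the amalgamated sum. -/
noncomputable def emb {x : V} (hx : ‖x‖ = 1) : V →ₗᵢ[𝕜] Q 𝕜 x where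
  toFun v := q x v 0
  map_add' v v' := by rw [← q_add, add_zero]
  map_smul' c v := by
    rw [RingHom.id_apply, ← q_smul, smul_zero]
  norm_map' v := norm_q_zero hx v

theorem emb_superDelta {x : V} (hx : IsSuperDelta 𝕜 x) :
    IsSuperDelta 𝕜 (emb (𝕜 := 𝕜) hx.1 x) := by
  set ι := emb (𝕜 := 𝕜) hx.1 with hι
  refine isSuperDelta_of (by rw [ι.norm_map, hx.1]) fun W hW hxW ε hε => ?_
  have hopen : IsOpen ((WeakSpace.map ι.toContinuousLinearMap) ⁻¹' W) :=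
    hW.preimage (WeakSpace.map ι.toContinuousLinearMap).continuous
  have h := hx.2 _ hopen hxW
  have h2 : ∃ y ∈ (fun y : V => ‖x - y‖) '' {y : V | ‖y‖ ≤ 1 ∧ toWeakSpace 𝕜 V y ∈
      (WeakSpace.map ι.toContinuousLinearMap) ⁻¹' W}, 2 - ε < y := by
    by_contra hcon
    push Not at hcon
    have := h.2 (show (2 - ε) ∈ upperBounds _ from fun y hy => hcon y hy)
    linarith
  obtain ⟨_, ⟨y, ⟨hy1, hyW⟩, rfl⟩, hy2⟩ := h2
  refine ⟨ι y, by rw [ι.norm_map]; exact hy1, hyW, ?_⟩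
  rw [← map_sub, ι.norm_map]
  exact hy2

theorem denting {x : V} (hx : ‖x‖ = 1) {c s : ℝ} (hc0 : 0 < c) (hc1 : c < 1)
    (hcs : c ^ 2 + s ^ 2 = 1) : IsDenting 𝕜 (q x 0 (e 𝕜 c s)) := by
  have hen : ‖e 𝕜 c s‖ = 1 := norm_e hcs
  have hqn : ‖q x (0 : V) (e 𝕜 c s)‖ ≤ 1 := (norm_q_le _ _ _).trans (by simp [hen])
  refine ⟨hqn, fun ε hε => ?_⟩
  have hx0 : ‖x‖ ≠ 0 := by rw [hx]; exact one_ne_zero
  obtain ⟨φ, hφ1, hφ2⟩ := exists_dual_vector 𝕜 x hx0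
  have hφx : φ x = 1 := by rw [hφ2, hx]; simp
  set ψ : E 𝕜 →L[𝕜] 𝕜 := innerSL 𝕜 (e 𝕜 c s) with hψ
  have hψ1 : ‖ψ‖ ≤ 1 := by rw [hψ, innerSL_apply_norm, hen]
  have hψe : ψ (e 𝕜 1 0) = (c : 𝕜) := by
    rw [hψ, innerSL_apply_apply, PiLp.inner_apply, Fin.sum_univ_two]
    simp [e]
  have hψee : ψ (e 𝕜 c s) = 1 := by
    rw [hψ, innerSL_apply_apply, inner_self_eq_norm_sq_to_K, hen]; simp
  have hcφ : ‖(c : 𝕜) • φ‖ ≤ 1 := by
    rw [norm_smul, hφ1, mul_one, RCLike.norm_ofReal, abs_of_pos hc0]; exact hc1.le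
  have hagree : ((c : 𝕜) • φ) x = ψ (e 𝕜 1 0) := by
    rw [hψe]; simp [hφx]
  set f := lift x ((c : 𝕜) • φ) ψ hagree hcφ hψ1 with hf
  have hfz : f (q x 0 (e 𝕜 c s)) = 1 := by
    rw [hf, lift_q, map_zero, zero_add, hψee]
  have hfn : ‖f‖ = 1 := by
    refine le_antisymm (norm_lift_le _ _ _ _ _ _) ?_
    have h1 := f.le_opNorm (q x 0 (e 𝕜 c s))
    rw [hfz, norm_one] at h1
    calc (1 : ℝ) ≤ ‖f‖ * ‖q x (0 : V) (e 𝕜 c s)‖ := h1
      _ ≤ ‖f‖ * 1 := by gcongr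
      _ = ‖f‖ := mul_one _
  have hκ : 0 < 1 - c := by linarith
  -- points of the slice are close to the distinguished point
  have key : ∀ α : ℝ, 0 < α → ∀ u ∈ slice 𝕜 f α,
      ‖u - q x 0 (e 𝕜 c s)‖ ≤ 2 * α / (1 - c) +
        Real.sqrt (4 * α + α ^ 2 + 4 * α / (1 - c)) := by
    intro α hα u hu
    obtain ⟨v, w, rfl, hvw⟩ := exists_rep x u hα
    have hu1 := hu.1
    have hu2 := hu.2
    rw [hfn, hf, lift_q, map_add] at hu2
    have ha : RCLike.re (((c : 𝕜) • φ) v) ≤ c * ‖v‖ := by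
      refine (RCLike.re_le_norm _).trans ?_
      rw [smul_apply, norm_smul, RCLike.norm_ofReal, abs_of_pos hc0]
      gcongr
      calc ‖φ v‖ ≤ ‖φ‖ * ‖v‖ := φ.le_opNorm v
        _ = ‖v‖ := by rw [hφ1, one_mul]
    have hb : RCLike.re (ψ w) ≤ ‖w‖ := by
      refine (RCLike.re_le_norm _).trans ?_
      calc ‖ψ w‖ ≤ ‖ψ‖ * ‖w‖ := ψ.le_opNorm w
        _ ≤ 1 * ‖w‖ := by gcongr
        _ = ‖w‖ := one_mul _
    have hv : ‖v‖ ≤ 2 * α / (1 - c) := by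
      rw [le_div_iff₀ hκ]
      nlinarith
    have hw1 : ‖w‖ ≤ 1 + α := by linarith [norm_nonneg v]
    have hre : 1 - α - 2 * α / (1 - c) ≤ RCLike.re (ψ w) := by
      have : c * ‖v‖ ≤ ‖v‖ := by nlinarith [norm_nonneg v]
      linarith
    have hdist : ‖w - e 𝕜 c s‖ ^ 2 ≤ 4 * α + α ^ 2 + 4 * α / (1 - c) := by
      have h1 : ‖w - e 𝕜 c s‖ ^ 2 = ‖w‖ ^ 2 - 2 * RCLike.re (inner 𝕜 w (e 𝕜 c s)) + ‖e 𝕜 c s‖ ^ 2 :=
        @norm_sub_sq 𝕜 _ _ _ _ w (e 𝕜 c s)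
      have h2 : RCLike.re (inner 𝕜 w (e 𝕜 c s)) = RCLike.re (ψ w) := by
        rw [hψ, innerSL_apply_apply]
        exact inner_re_symm w (e 𝕜 c s)
      rw [h1, h2, hen]
      have h3 : ‖w‖ ^ 2 ≤ (1 + α) ^ 2 := by
        have := norm_nonneg w
        gcongr
      have h4 : 4 * α / (1 - c) = 2 * (2 * α / (1 - c)) := by ring
      rw [h4]
      nlinarith
    have hw2 : ‖w - e 𝕜 c s‖ ≤ Real.sqrt (4 * α + α ^ 2 + 4 * α / (1 - c)) :=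
      Real.le_sqrt_of_sq_le hdist
    rw [← q_sub, sub_zero]
    exact (norm_q_le _ _ _).trans (add_le_add hv hw2)
  -- choose the parameter
  have hlim : Tendsto (fun α : ℝ => 2 * α / (1 - c) +
      Real.sqrt (4 * α + α ^ 2 + 4 * α / (1 - c))) (𝓝[>] 0) (𝓝 0) := by
    have hcont : Continuous (fun α : ℝ => 2 * α / (1 - c) +
      Real.sqrt (4 * α + α ^ 2 + 4 * α / (1 - c))) := by fun_prop
    have h0 := hcont.tendsto 0
    simp only [mul_zero, zero_div, ne_eq, OfNat.ofNat_ne_zero, not_false_eq_true, zero_pow,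
      add_zero, Real.sqrt_zero] at h0
    exact h0.mono_left nhdsWithin_le_nhds
  have hev := hlim.eventually (gt_mem_nhds (show (0 : ℝ) < ε / 4 by linarith))
  obtain ⟨α, hα1, hα2⟩ := (hev.and self_mem_nhdsWithin).exists
  have hα : 0 < α := hα2
  refine ⟨f, α, ?_, hα, ⟨hqn, ?_⟩, ?_⟩
  · intro h0
    rw [h0] at hfz
    exact zero_ne_one hfz
  · rw [hfz, hfn]
    simpa using hα
  · refine lt_of_le_of_lt (Metric.diam_le_of_forall_dist_le (C := ε / 2) (by linarith) ?_)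
      (by linarith)
    intro y hy z hz
    have h1 := key α hα y hy
    have h2 := key α hα z hz
    calc dist y z ≤ dist y (q x 0 (e 𝕜 c s)) + dist z (q x 0 (e 𝕜 c s)) := dist_triangle_right _ _ _
      _ = ‖y - q x 0 (e 𝕜 c s)‖ + ‖z - q x 0 (e 𝕜 c s)‖ := by rw [dist_eq_norm, dist_eq_norm]
      _ ≤ ε / 2 := by linarith

theorem emb_closure {x : V} (hx : ‖x‖ = 1) :
    emb (𝕜 := 𝕜) hx x ∈ closure {z : Q 𝕜 x | IsDenting 𝕜 z} := by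
  rw [Metric.mem_closure_iff]
  intro ε hε
  -- the vectors `(cos θ, sin θ)` tend to `(1, 0)`
  have hcont : Continuous (fun θ : ℝ => (Real.cos θ - 1) ^ 2 + (Real.sin θ - 0) ^ 2) := by fun_prop
  have h0 := hcont.tendsto 0
  simp only [Real.cos_zero, sub_self, ne_eq, OfNat.ofNat_ne_zero, not_false_eq_true, zero_pow,
    Real.sin_zero, add_zero] at h0
  have hev := (h0.mono_left (nhdsWithin_le_nhds (s := Set.Ioi 0))).eventually
    (gt_mem_nhds (show (0 : ℝ) < ε ^ 2 by positivity))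
  have hev2 : ∀ᶠ θ : ℝ in 𝓝[>] 0, θ < 1 :=
    nhdsWithin_le_nhds (Iio_mem_nhds (show (0 : ℝ) < 1 by norm_num))
  obtain ⟨θ, ⟨hθ1, hθ2⟩, hθ3⟩ := ((hev.and hev2).and self_mem_nhdsWithin).exists
  have hθ0 : 0 < θ := hθ3
  have hπ : θ < Real.pi / 2 := by linarith [Real.pi_gt_three]
  have hc0 : 0 < Real.cos θ := Real.cos_pos_of_mem_Ioo ⟨by linarith, hπ⟩
  have hc1 : Real.cos θ < 1 := by
    have hs : 0 < Real.sin θ := Real.sin_pos_of_pos_of_lt_pi hθ0 (by linarith)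
    nlinarith [Real.sin_sq_add_cos_sq θ]
  refine ⟨q x 0 (e 𝕜 (Real.cos θ) (Real.sin θ)),
    denting hx hc0 hc1 (Real.cos_sq_add_sin_sq θ), ?_⟩
  rw [dist_comm, dist_eq_norm]
  have : emb (𝕜 := 𝕜) hx x = q x 0 (e 𝕜 1 0) := q_self x
  rw [this, ← q_sub, sub_zero]
  refine lt_of_le_of_lt (norm_q_le _ _ _) ?_
  rw [norm_zero, zero_add]
  refine lt_of_pow_lt_pow_left₀ 2 hε.le ?_
  rw [norm_e_sub]
  exact hθ1

end Main

/-- Over `ℝ` and over `ℂ` there is a Banach space with a super `Δ`-point (hence a `Δ`-point) that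
is a norm limit of denting points of the unit ball. -/
theorem result (𝕜 : Type) [RCLike 𝕜] :
    ∃ (X : Type) (_ : NormedAddCommGroup X) (_ : NormedSpace 𝕜 X) (_ : CompleteSpace X) (x : X),
      IsSuperDelta 𝕜 x ∧ IsDelta 𝕜 x ∧ x ∈ closure {z : X | IsDenting 𝕜 z} := by
  have h1 := one_isSuperDelta 𝕜
  exact ⟨Q 𝕜 (1 : BoundedContinuousFunction ℕ 𝕜), inferInstance, inferInstance, inferInstance,
    emb (𝕜 := 𝕜) h1.1 1, emb_superDelta h1, (emb_superDelta h1).isDelta, emb_closure h1.1⟩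

end Pool.Agent.Results.MP_a21db2_an.SuperDeltaDenting
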